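import Pool.Agent.N748.MJ.Fin
import Pool.Agent.N748.MJ.JMF
import Pool.Agent.Y753.NL.Uni0
import Pool.Agent.Y755.Fin4

set_option autoImplicit false

/-! The fourth moment over shifted intervals, uniformly; products of powers over small sets. -/

namespace Pool.Agent.Run7.h290.RB

open Finset Filter MeasureTheory Topology Complex
open Pool.Agent.N748.MG Pool.Agent.N748.MJ Pool.Agent.N748.MJ.SM
open Pool.Agent.W184 (zn)
open Pool.Agent.Y755 (DD)

lemma zn_mz (δ t : ℝ) : zn (1 / 2 + δ) t = mz δ t := by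
  unfold zn mz pw
  push_cast
  rfl

lemma mz_neg (δ t : ℝ) : mz δ (-t) = mz δ t := by
  unfold mz pw
  have e : (1 / 2 + (δ : ℂ) + ((-t : ℝ) : ℂ) * I) = (starRingEnd ℂ) (1 / 2 + (δ : ℂ) + (t : ℂ) * I) := by
    simp only [map_add, map_mul, map_div₀, map_one, map_ofNat, Complex.conj_ofReal, Complex.conj_I]
    push_cast
    ring
  rw [e, riemannZeta_conj, RCLike.norm_conj]

/-- the fourth moment -/
theorem four : ∃ C : ℝ, 0 < C ∧ Ev fun X δ => ∫ t in (0:ℝ)..(2 * X), mz δ t ^ (4:ℝ) ≤ C * δ ^ (-(4:ℝ)) * X := by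
  obtain ⟨lam, hl1, hw⟩ := Pool.Agent.Y755.full_up4 (α := 2) (by norm_num) le_rfl one_pos
  obtain ⟨δ1, C, hδ1, hC, hD⟩ := Pool.Agent.Y753.NL.DD_up (α := 2) (by norm_num)
  refine ⟨4 * C, by positivity, ?_⟩
  have h2 : Tendsto (fun X : ℝ => 2 * X) atTop atTop := tendsto_id.const_mul_atTop (by norm_num)
  have hev := Ev.of_ev ((h2.eventually hw).and (eventually_gt_atTop 1))
  refine ((hev.and (Ev.lam lam)).and (Ev.of_le hδ1)).mono ?_
  intro X δ hX1 hδ0 hδ16 h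
  obtain ⟨⟨⟨g1, g2⟩, g3⟩, g4⟩ := h
  have hX0 : 0 < X := by linarith
  have hL : 0 < Real.log X := Real.log_pos g2
  have h5 : 1 ≤ Real.log (1 / δ) := by
    rw [one_div, Real.log_inv, ← Real.log_inv]
    rw [Real.le_log_iff_exp_le (by positivity)]
    have := Real.exp_one_lt_d9
    have h6 : (16:ℝ) ≤ δ⁻¹ := by
      rw [le_inv_comm₀ (by norm_num) hδ0]
      norm_num
      linarith
    linarith
  have h6 : lam ≤ δ * Real.log X := by
    have : lam * 1 ≤ lam * Real.log (1 / δ) ^ 2 := mul_le_mul_of_nonneg_left (one_le_pow₀ h5) (by linarith)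
    linarith
  have h7 : lam / Real.log (2 * X) ≤ δ := by
    have h8 : Real.log X ≤ Real.log (2 * X) := Real.log_le_log hX0 (by linarith)
    rw [div_le_iff₀ (by linarith)]
    exact h6.trans (mul_le_mul_of_nonneg_left h8 hδ0.le)
  have h8 := g1 δ h7 hδ16
  simp_rw [zn_mz] at h8
  rw [show (2:ℝ) * 2 = 4 by norm_num] at h8
  have h9 := hD δ hδ0 g4
  rw [show (2:ℝ) ^ 2 = 4 by norm_num] at h9
  calc ∫ t in (0:ℝ)..(2 * X), mz δ t ^ (4:ℝ) ≤ (1 + 1) * (2 * X * DD 2 δ) := h8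
    _ ≤ (1 + 1) * (2 * X * (C * δ ^ (-(4:ℝ)))) := by gcongr
    _ = 4 * C * δ ^ (-(4:ℝ)) * X := by ring

/-- the fourth moment over shifted intervals -/
theorem four_shift : ∃ C : ℝ, 0 < C ∧ Ev fun X δ => ∀ u : ℝ, |u| ≤ X ^ ((1:ℝ) / 2) →
    ∫ t in Set.Icc 0 X, mz δ (t + u) ^ (4:ℝ) ≤ C * δ ^ (-(4:ℝ)) * X := by
  obtain ⟨C, hC, h⟩ := four
  refine ⟨2 * C, by positivity, h.mono ?_⟩
  intro X δ hX1 hδ0 hδ16 h u hu
  have hX0 : 0 < X := by linarith
  have hu' : |u| ≤ X := by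
    refine hu.trans ?_
    have := Real.rpow_le_rpow_of_exponent_le hX1 (show (1:ℝ) / 2 ≤ 1 by norm_num)
    rwa [Real.rpow_one] at this
  obtain ⟨u1, u2⟩ := abs_le.mp hu'
  have hf : Continuous fun t => mz δ t ^ (4:ℝ) := (TMA.cont hδ16).rpow_const fun _ => Or.inr (by norm_num)
  have hf0 : ∀ t, 0 ≤ mz δ t ^ (4:ℝ) := fun t => Real.rpow_nonneg (norm_nonneg _) _
  have i0 : ∫ t in (0:ℝ)..X, mz δ (t + u) ^ (4:ℝ) = ∫ t in (0 + u)..(X + u), mz δ t ^ (4:ℝ) :=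
    intervalIntegral.integral_comp_add_right (fun t => mz δ t ^ (4:ℝ)) u
  rw [integral_Icc_eq_integral_Ioc, ← intervalIntegral.integral_of_le hX0.le, i0, zero_add]
  have i2 : ∫ t in u..(X + u), mz δ t ^ (4:ℝ) ≤ ∫ t in (-(2 * X))..(2 * X), mz δ t ^ (4:ℝ) :=
    intervalIntegral.integral_mono_interval (by linarith) (by linarith) (by linarith) (Eventually.of_forall hf0)
      (hf.intervalIntegrable _ _)
  have i3 : ∫ t in (-(2 * X))..(2 * X), mz δ t ^ (4:ℝ) = (∫ t in (-(2 * X))..0, mz δ t ^ (4:ℝ)) +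
      ∫ t in (0:ℝ)..(2 * X), mz δ t ^ (4:ℝ) :=
    (intervalIntegral.integral_add_adjacent_intervals (hf.intervalIntegrable _ _) (hf.intervalIntegrable _ _)).symm
  have i4 : ∫ t in (-(2 * X))..0, mz δ t ^ (4:ℝ) = ∫ t in (0:ℝ)..(2 * X), mz δ t ^ (4:ℝ) := by
    have h1 := intervalIntegral.integral_comp_neg (a := 0) (b := 2 * X) (fun t => mz δ t ^ (4:ℝ))
    simp only [mz_neg, neg_zero] at h1
    exact h1.symm
  rw [i3, i4] at i2
  refine i2.trans ?_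
  linarith

/-- powers below four -/
lemma pow_split {x L p : ℝ} (hx : 0 ≤ x) (hL : 0 < L) (hp0 : 0 ≤ p) (hp : p ≤ 4) :
    x ^ p ≤ L ^ p + L ^ (p - 4) * x ^ (4:ℝ) := by
  rcases le_total x L with h | h
  · have h1 : x ^ p ≤ L ^ p := Real.rpow_le_rpow hx h hp0
    have h2 : 0 ≤ L ^ (p - 4) * x ^ (4:ℝ) := mul_nonneg (Real.rpow_nonneg hL.le _) (Real.rpow_nonneg hx _)
    linarith
  · have hx0 : 0 < x := lt_of_lt_of_le hL h
    have h1 : x ^ (p - 4) ≤ L ^ (p - 4) := Real.rpow_le_rpow_of_nonpos hL h (by linarith)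
    have h2 : x ^ p = x ^ (p - 4) * x ^ (4:ℝ) := by
      rw [← Real.rpow_add hx0]
      congr 1
      ring
    have h3 : 0 ≤ L ^ p := Real.rpow_nonneg hL.le _
    rw [h2]
    have h4 := mul_le_mul_of_nonneg_right h1 (Real.rpow_nonneg hx (4:ℝ))
    linarith

/-- products of powers -/
lemma prod_le {m : ℕ} {x k : Fin m → ℝ} {K : ℝ} (hx : ∀ j, 0 ≤ x j) (hk : ∀ j, 0 ≤ k j) (hK : ∑ j, k j ≤ K) :
    ∏ j, x j ^ (2 * k j) ≤ 1 + ∑ j, x j ^ (2 * K) := by
  have hs0 : 0 ≤ ∑ j, x j ^ (2 * K) := sum_nonneg fun j _ => Real.rpow_nonneg (hx j) _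
  have hS0 : 0 ≤ ∑ j, k j := sum_nonneg fun j _ => hk j
  rcases Nat.eq_zero_or_pos m with hm | hm
  · subst hm
    simp
  have : Nonempty (Fin m) := ⟨⟨0, hm⟩⟩
  obtain ⟨i, -, hi⟩ := exists_max_image (univ : Finset (Fin m)) x univ_nonempty
  rcases le_total (x i) 1 with h | h
  · have h1 : ∏ j, x j ^ (2 * k j) ≤ ∏ _j : Fin m, (1:ℝ) :=
      prod_le_prod (fun j _ => Real.rpow_nonneg (hx j) _) fun j hj =>
        Real.rpow_le_one (hx j) ((hi j hj).trans h) (by have := hk j; linarith)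
    rw [prod_const_one] at h1
    linarith
  · have hi0 : 0 < x i := by linarith
    have h1 : ∏ j, x j ^ (2 * k j) ≤ ∏ j, x i ^ (2 * k j) :=
      prod_le_prod (fun j _ => Real.rpow_nonneg (hx j) _) fun j hj =>
        Real.rpow_le_rpow (hx j) (hi j hj) (by have := hk j; linarith)
    have h2 : ∏ j, x i ^ (2 * k j) = x i ^ (2 * ∑ j, k j) := by
      rw [← Real.rpow_sum_of_pos hi0, ← mul_sum]
    have h3 : x i ^ (2 * ∑ j, k j) ≤ x i ^ (2 * K) := Real.rpow_le_rpow_of_exponent_le h (by linarith)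
    have h4 : x i ^ (2 * K) ≤ ∑ j, x j ^ (2 * K) :=
      single_le_sum (f := fun j => x j ^ (2 * K)) (fun j _ => Real.rpow_nonneg (hx j) _) (mem_univ i)
    linarith

/-- the product over a small set -/
theorem small {m : ℕ} {K D : ℝ} (hK0 : 0 ≤ K) (hK : K < 2) (hD : 0 < D) : ∃ D' : ℝ, D ≤ D' ∧ Ev fun X δ =>
    ∀ h : Fin m → ℝ, (∀ j, |h j| ≤ X ^ ((1:ℝ) / 2)) → ∀ B : Set ℝ, MeasurableSet B → B ⊆ Set.Icc 0 X →
    volume B ≤ ENNReal.ofReal (δ ^ D' * X) → ∀ k : Fin m → ℝ, (∀ j, 0 ≤ k j) → ∑ j, k j ≤ K →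
    ∫ t in B, G k h δ t ≤ δ ^ D * X := by
  obtain ⟨C, hC, h4⟩ := four_shift
  obtain ⟨b, hb⟩ : ∃ b, b = (D + 5) / (4 - 2 * K) := ⟨_, rfl⟩
  have hK4 : 0 < 4 - 2 * K := by linarith
  have hb0 : 0 < b := by rw [hb]; positivity
  have hbK : b * (4 - 2 * K) = D + 5 := by rw [hb]; field_simp
  refine ⟨D + 1 + 2 * K * b, by nlinarith [mul_nonneg hK0 hb0.le], ?_⟩
  have hs := Ev.small (C := 1 + m + m * C) (c := 1) (e := 1) one_pos one_pos
  refine (h4.and hs).mono ?_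
  intro X δ hX1 hδ0 hδ16 hh h hhX B hBm hBX hvol k hk hkK
  obtain ⟨g4, gs⟩ := hh
  have hX0 : 0 < X := by linarith
  obtain ⟨L, hL⟩ : ∃ L, L = δ ^ (-b) := ⟨_, rfl⟩
  have hL0 : 0 < L := by rw [hL]; positivity
  have hfin : volume B < ⊤ := hvol.trans_lt ENNReal.ofReal_lt_top
  have hmzc : ∀ j, Continuous fun t : ℝ => mz δ (t + h j) ^ (4:ℝ) := fun j =>
    ((TMA.cont hδ16).comp (by fun_prop : Continuous fun t : ℝ => t + h j)).rpow_const fun _ => Or.inr (by norm_num)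
  have hpt : ∀ t, G k h δ t ≤ (1 + m * L ^ (2 * K)) + L ^ (2 * K - 4) * ∑ j, mz δ (t + h j) ^ (4:ℝ) := by
    intro t
    have h1 := prod_le (x := fun j => mz δ (t + h j)) (fun j => norm_nonneg _) hk hkK
    refine h1.trans ?_
    have h2 : ∑ j, mz δ (t + h j) ^ (2 * K) ≤ ∑ j : Fin m, (L ^ (2 * K) + L ^ (2 * K - 4) * mz δ (t + h j) ^ (4:ℝ)) :=
      sum_le_sum fun j _ => pow_split (norm_nonneg _) hL0 (by linarith) (by linarith)
    rw [sum_add_distrib, sum_const, card_univ, Fintype.card_fin, nsmul_eq_mul, ← mul_sum] at h2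
    linarith
  have hG4 : ∀ j, IntegrableOn (fun t => mz δ (t + h j) ^ (4:ℝ)) B := fun j => ((hmzc j).integrableOn_Icc).mono_set hBX
  have i1 : ∫ t in B, G k h δ t ≤ ∫ t in B, ((1 + m * L ^ (2 * K)) + L ^ (2 * K - 4) * ∑ j, mz δ (t + h j) ^ (4:ℝ)) := by
    refine setIntegral_mono (((G_cont hδ16 hk).integrableOn_Icc).mono_set hBX) ?_ hpt
    exact (integrableOn_const hfin.ne).add ((integrable_finsetSum _ fun j _ => hG4 j).const_mul _)
  have i2 : ∫ t in B, ((1 + m * L ^ (2 * K)) + L ^ (2 * K - 4) * ∑ j, mz δ (t + h j) ^ (4:ℝ)) =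
      (volume B).toReal * (1 + m * L ^ (2 * K)) + L ^ (2 * K - 4) * ∑ j, ∫ t in B, mz δ (t + h j) ^ (4:ℝ) := by
    have ic : Integrable (fun _ : ℝ => (1 + m * L ^ (2 * K) : ℝ)) (volume.restrict B) := integrableOn_const hfin.ne
    rw [integral_add ic ((integrable_finsetSum _ fun j _ => hG4 j).const_mul _),
      integral_const_mul, integral_finsetSum _ fun j _ => hG4 j, setIntegral_const, smul_eq_mul]
    rfl
  have i3 : ∀ j, ∫ t in B, mz δ (t + h j) ^ (4:ℝ) ≤ C * δ ^ (-(4:ℝ)) * X := by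
    intro j
    refine le_trans ?_ (g4 (h j) (hhX j))
    exact setIntegral_mono_set (hmzc j).integrableOn_Icc
      (Eventually.of_forall fun t => Real.rpow_nonneg (norm_nonneg _) _) hBX.eventuallyLE
  have i4 : ∑ j, ∫ t in B, mz δ (t + h j) ^ (4:ℝ) ≤ m * (C * δ ^ (-(4:ℝ)) * X) := by
    refine (sum_le_sum fun j _ => i3 j).trans ?_
    rw [sum_const, card_univ, Fintype.card_fin, nsmul_eq_mul]
  have i5 : (volume B).toReal ≤ δ ^ (D + 1 + 2 * K * b) * X := ENNReal.toReal_le_of_le_ofReal (by positivity) hvol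
  have e1 : L ^ (2 * K) = δ ^ (-(2 * K * b)) := by
    rw [hL, ← Real.rpow_mul hδ0.le]
    congr 1
    ring
  have e2 : L ^ (2 * K - 4) = δ ^ (D + 5) := by
    rw [hL, ← Real.rpow_mul hδ0.le]
    congr 1
    linarith
  have hδ1 : δ ≤ 1 := by linarith
  have e3 : 1 ≤ δ ^ (-(2 * K * b)) :=
    Real.one_le_rpow_of_pos_of_le_one_of_nonpos hδ0 hδ1 (by have := mul_nonneg hK0 hb0.le; linarith)
  have p1 : (volume B).toReal * (1 + m * L ^ (2 * K)) ≤ (1 + m) * (δ ^ (D + 1) * X) := by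
    rw [e1]
    calc (volume B).toReal * (1 + m * δ ^ (-(2 * K * b))) ≤
        (δ ^ (D + 1 + 2 * K * b) * X) * ((1 + m) * δ ^ (-(2 * K * b))) := by
          refine mul_le_mul i5 ?_ (by positivity) (by positivity)
          have : (1:ℝ) ≤ 1 * δ ^ (-(2 * K * b)) := by rw [one_mul]; exact e3
          rw [add_mul]
          linarith
      _ = (1 + m) * ((δ ^ (D + 1 + 2 * K * b) * δ ^ (-(2 * K * b))) * X) := by ring
      _ = (1 + m) * (δ ^ (D + 1) * X) := by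
          rw [← Real.rpow_add hδ0]
          congr 3
          ring
  have p2 : L ^ (2 * K - 4) * ∑ j, ∫ t in B, mz δ (t + h j) ^ (4:ℝ) ≤ m * C * (δ ^ (D + 1) * X) := by
    rw [e2]
    calc δ ^ (D + 5) * ∑ j, ∫ t in B, mz δ (t + h j) ^ (4:ℝ) ≤ δ ^ (D + 5) * (m * (C * δ ^ (-(4:ℝ)) * X)) := by gcongr
      _ = m * C * ((δ ^ (D + 5) * δ ^ (-(4:ℝ))) * X) := by ring
      _ = m * C * (δ ^ (D + 1) * X) := by
          rw [← Real.rpow_add hδ0]
          congr 3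
          ring
  have e4 : δ ^ (D + 1) = δ ^ D * δ := by rw [Real.rpow_add hδ0, Real.rpow_one]
  rw [Real.rpow_one] at gs
  calc ∫ t in B, G k h δ t ≤ _ := i1
    _ = _ := i2
    _ ≤ (1 + m) * (δ ^ (D + 1) * X) + m * C * (δ ^ (D + 1) * X) := add_le_add p1 p2
    _ = ((1 + m + m * C) * δ) * (δ ^ D * X) := by rw [e4]; ring
    _ ≤ 1 * (δ ^ D * X) := mul_le_mul_of_nonneg_right gs (by positivity)
    _ = δ ^ D * X := one_mul _

end Pool.Agent.Run7.h290.RB
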