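import Pool.Agent.Run7.h290.RB.A

set_option autoImplicit false

/-! The moments of all orders below four over the whole interval: the full main term, and the leading term. -/

namespace Pool.Agent.Run7.h290.RB

open Finset Filter MeasureTheory Topology Complex
open Pool.Agent.N748.MG Pool.Agent.N748.MJ Pool.Agent.N748.MJ.SM

lemma jmf : S_JMF :=
  JMF.main cmpvF MVS.main (DIA1V.sizv bndF SIZ.main) SIZ.main
    (L4V.main bndF MVS.main SIZ.main (L4.main MVS.main SIZ.main)) (DIA1V.main bndF DIA1.main) nicF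

lemma dia2 : S_DIA2V := DIA2V.main bndF gvbF LZB.main

/-- the integrand -/
noncomputable def F {m : ℕ} (b : Fin m → ℂ) (n : Fin m → ℤ) (h : Fin m → ℝ) (δ t : ℝ) : ℂ :=
  ∏ j, ZZ (riemannZeta (pw δ (t + h j))) (b j) (n j)

/-- the diagonal series -/
noncomputable def S {m : ℕ} (b : Fin m → ℂ) (n : Fin m → ℤ) (h : Fin m → ℝ) (δ : ℝ) : ℂ :=
  ∑' q : ℕ, dV (sp b n) h q * (starRingEnd ℂ) (dV (cj (sm b n)) h q) * (((q:ℝ) ^ (-(1 + 2 * δ)) : ℝ) : ℂ)

lemma ZZ_norm (z b : ℂ) (n : ℤ) (hb : 0 ≤ b.re) : ‖ZZ z b n‖ ≤ ‖z‖ ^ (2 * b.re) := by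
  unfold ZZ
  rcases eq_or_ne z 0 with hz | hz
  · subst hz
    simp only [norm_zero, Complex.ofReal_zero, div_zero]
    rcases eq_or_ne b 0 with hb0 | hb0
    · subst hb0
      simp only [mul_zero, Complex.cpow_zero, one_mul, Complex.zero_re, Real.rpow_zero]
      rcases eq_or_ne n 0 with hn | hn
      · subst hn
        simp
      · rw [zero_zpow n hn]
        simp
    · rw [Complex.zero_cpow (mul_ne_zero two_ne_zero hb0), zero_mul, norm_zero]
      exact Real.rpow_nonneg le_rfl _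
  · have h0 : 0 < ‖z‖ := norm_pos_iff.mpr hz
    rw [norm_mul, Complex.norm_cpow_eq_rpow_re_of_pos h0]
    have h1 : ‖(z / ((‖z‖ : ℝ) : ℂ)) ^ n‖ = 1 := by
      rw [norm_zpow, norm_div, Complex.norm_real, norm_norm, div_self h0.ne', one_zpow]
    rw [h1, mul_one]
    simp

lemma F_norm {m : ℕ} {b : Fin m → ℂ} {n : Fin m → ℤ} {h : Fin m → ℝ} {δ t : ℝ} (hb : ∀ j, 0 ≤ (b j).re) :
    ‖F b n h δ t‖ ≤ G (fun j => (b j).re) h δ t := by
  unfold F G
  rw [norm_prod]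
  exact prod_le_prod (fun j _ => norm_nonneg _) fun j _ => ZZ_norm _ _ _ (hb j)

lemma zeta_cont {δ : ℝ} (h0 : δ ≤ 1 / 16) : Continuous fun t : ℝ => riemannZeta (pw δ t) := by
  rw [continuous_iff_continuousAt]
  intro t
  have h1 : ContinuousAt riemannZeta (pw δ t) :=
    (differentiableAt_riemannZeta (TMA.pw_ne_one h0 t)).continuousAt
  have h2 : Continuous (pw δ) := by
    unfold pw
    fun_prop
  exact ContinuousAt.comp (f := fun t : ℝ => pw δ t) h1 h2.continuousAt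

lemma F_meas {m : ℕ} {b : Fin m → ℂ} {n : Fin m → ℤ} {h : Fin m → ℝ} {δ : ℝ} (h0 : δ ≤ 1 / 16) :
    Measurable fun t => F b n h δ t := by
  unfold F
  refine Finset.measurable_fun_prod _ fun j _ => ?_
  have h1 : Measurable fun t : ℝ => riemannZeta (pw δ (t + h j)) :=
    ((zeta_cont h0).comp (by fun_prop : Continuous fun t : ℝ => t + h j)).measurable
  have h2 : Measurable fun t : ℝ => ((‖riemannZeta (pw δ (t + h j))‖ : ℝ) : ℂ) :=
    Complex.measurable_ofReal.comp h1.norm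
  unfold ZZ
  exact (h2.pow_const _).mul ((h1.div h2).pow_const _)

section

variable {m : ℕ} {R D K : ℝ} (hR : 0 < R) (hD : 0 < D) (hK0 : 0 ≤ K) (hK : K < 2)

include hR hD hK0 hK

/-- the full main term -/
theorem full : Ev fun X δ => ∀ h : Fin m → ℝ, (∀ j, |h j| ≤ X ^ ((1:ℝ) / 2)) → ∀ (b : Fin m → ℂ) (n : Fin m → ℤ),
    (∀ j, ‖b j‖ ≤ R) → (∀ j, |((n j : ℤ) : ℝ)| ≤ R) → (∀ j, 0 ≤ (b j).re) → ∑ j, (b j).re ≤ K →
    ‖(∫ t in Set.Icc 0 X, F b n h δ t) - X * S b n h δ‖ ≤ δ ^ D * X := by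
  obtain ⟨D', hD', hs⟩ := small (m := m) hK0 hK (show 0 < D + 1 by linarith)
  have hJ := jmf m R D' hR (by linarith)
  refine (hs.and hJ).mono ?_
  intro X δ hX1 hδ0 hδ16 hh h hhX b n hb hn hb0 hbK
  obtain ⟨g1, g2⟩ := hh
  have hX0 : 0 < X := by linarith
  have hδ1 : δ ≤ 1 := by linarith
  obtain ⟨N, n1, n2, n3, n4, n5⟩ := g2 h hhX
  have h5 := n5 b n hb hn
  have hint : IntegrableOn (fun t => F b n h δ t) (Set.Icc 0 X) := by
    refine Integrable.mono' (G_cont (h := h) hδ16 hb0).integrableOn_Icc (F_meas hδ16).aestronglyMeasurable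
      (Eventually.of_forall fun t => F_norm hb0)
  have hsplit : (∫ t in Set.Icc 0 X, F b n h δ t) = (∫ t in N, F b n h δ t) + ∫ t in Set.Icc 0 X \ N, F b n h δ t := by
    have := setIntegral_sdiff (f := fun t => F b n h δ t) (μ := volume) n1 hint n2
    rw [this]
    ring
  have hbad : ‖∫ t in Set.Icc 0 X \ N, F b n h δ t‖ ≤ δ ^ (D + 1) * X := by
    refine le_trans ?_ (g1 h hhX (Set.Icc 0 X \ N) (measurableSet_Icc.diff n1) Set.sdiff_subset n3 (fun j => (b j).re) hb0 hbK)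
    exact norm_integral_le_of_norm_le (((G_cont (h := h) hδ16 hb0).integrableOn_Icc).mono_set Set.sdiff_subset)
      (Eventually.of_forall fun t => F_norm hb0)
  have e1 : δ ^ (D + 1) = δ ^ D * δ := by rw [Real.rpow_add hδ0, Real.rpow_one]
  have e2 : δ ^ D' ≤ δ ^ (D + 1) := Real.rpow_le_rpow_of_exponent_ge hδ0 hδ1 hD'
  have h6 : ‖(∫ t in N, F b n h δ t) - X * S b n h δ‖ ≤ δ ^ (D + 1) * X := h5.trans (mul_le_mul_of_nonneg_right e2 hX0.le)
  rw [hsplit]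
  have e3 : (∫ t in N, F b n h δ t) + (∫ t in Set.Icc 0 X \ N, F b n h δ t) - X * S b n h δ =
      ((∫ t in N, F b n h δ t) - X * S b n h δ) + ∫ t in Set.Icc 0 X \ N, F b n h δ t := by ring
  rw [e3]
  refine (norm_add_le _ _).trans ?_
  have h7 : 0 ≤ δ ^ D * X := by positivity
  calc _ ≤ δ ^ (D + 1) * X + δ ^ (D + 1) * X := add_le_add h6 hbad
    _ = (2 * δ) * (δ ^ D * X) := by rw [e1]; ring
    _ ≤ 1 * (δ ^ D * X) := mul_le_mul_of_nonneg_right (by linarith) h7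
    _ = δ ^ D * X := one_mul _

omit hD in
/-- the leading term -/
theorem lead {ε : ℝ} (hε : 0 < ε) : Ev fun X δ => ∀ h : Fin m → ℝ, (∀ j, |h j| ≤ X ^ ((1:ℝ) / 2)) →
    ∀ (b : Fin m → ℂ) (n : Fin m → ℤ), (∀ j, ‖b j‖ ≤ R) → (∀ j, |((n j : ℤ) : ℝ)| ≤ R) → (∀ j, 0 ≤ (b j).re) →
    ∑ j, (b j).re ≤ K →
    ‖Complex.exp (-(LM (sp b n) (sm b n) h δ)) * (∫ t in Set.Icc 0 X, F b n h δ t) - X * aV (sp b n) (sm b n) h‖ ≤ ε * X := by
  obtain ⟨Q, hQ⟩ : ∃ Q : ℝ, Q = (m : ℝ) * (m * (2 * R * (2 * R))) := ⟨_, rfl⟩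
  have hQ0 : 0 ≤ Q := by rw [hQ]; positivity
  have hf := full (m := m) (D := Q + 1) hR (by linarith) hK0 hK
  obtain ⟨δ1, hδ1, hd⟩ := dia2 m (2 * R) (by linarith) (ε / 2) (half_pos hε)
  refine ((hf.and (Ev.of_le hδ1)).and (Ev.small (C := 1) (c := 1) (e := ε / 2) one_pos (half_pos hε))).mono ?_
  intro X δ hX1 hδ0 hδ16 hh h hhX b n hb hn hb0 hbK
  obtain ⟨⟨g1, g2⟩, g3⟩ := hh
  have hX0 : 0 < X := by linarith
  have hδ1' : δ ≤ 1 := by linarith
  have hn2 : ∀ j, ‖((n j : ℤ) : ℂ) / 2‖ ≤ R := by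
    intro j
    rw [norm_div, Complex.norm_intCast]
    have := hn j
    simp only [Complex.norm_ofNat]
    linarith [abs_nonneg ((n j : ℤ) : ℝ)]
  have hs1 : ∀ j, ‖sp b n j‖ ≤ 2 * R := by
    intro j
    unfold sp
    exact (norm_add_le _ _).trans (by linarith [hb j, hn2 j])
  have hs2 : ∀ j, ‖sm b n j‖ ≤ 2 * R := by
    intro j
    unfold sm
    exact (norm_sub_le _ _).trans (by linarith [hb j, hn2 j])
  have h1 := hd δ hδ0 g2 (sp b n) (sm b n) h hs1 hs2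
  have h2 := g1 h hhX b n hb hn hb0 hbK
  obtain ⟨L, hL⟩ : ∃ L, L = Real.log (1 / δ) := ⟨_, rfl⟩
  have hL0 : 0 ≤ L := by rw [hL]; exact Real.log_nonneg (by rw [le_div_iff₀ hδ0]; linarith)
  have hLM : ‖LM (sp b n) (sm b n) h δ‖ ≤ Q * L := by
    unfold LM
    calc ‖∑ j, ∑ l, sp b n j * sm b n l * LZ (1 + 2 * δ) (h j - h l)‖ ≤
        ∑ _j : Fin m, ∑ _l : Fin m, 2 * R * (2 * R) * L := by
          refine (norm_sum_le _ _).trans (sum_le_sum fun j _ => (norm_sum_le _ _).trans (sum_le_sum fun l _ => ?_))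
          rw [norm_mul, norm_mul, hL]
          have := (LZB.main δ hδ0 hδ16 (h j - h l)).1
          gcongr
          · exact hs1 j
          · exact hs2 l
      _ = Q * L := by
          simp only [sum_const, card_univ, Fintype.card_fin, nsmul_eq_mul]
          rw [hQ]
          ring
  have hexp : ‖Complex.exp (-(LM (sp b n) (sm b n) h δ))‖ ≤ δ ^ (-Q) := by
    rw [Complex.norm_exp]
    have h3 : (-(LM (sp b n) (sm b n) h δ)).re ≤ Q * L :=
      (Complex.re_le_norm _).trans (by rw [norm_neg]; exact hLM)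
    have h4 : δ ^ (-Q) = Real.exp (Q * L) := by
      rw [Real.rpow_def_of_pos hδ0, hL, one_div, Real.log_inv]
      congr 1
      ring
    rw [h4]
    exact Real.exp_le_exp.2 h3
  obtain ⟨A, hA⟩ : ∃ A, A = Complex.exp (-(LM (sp b n) (sm b n) h δ)) := ⟨_, rfl⟩
  obtain ⟨I0, hI0⟩ : ∃ I0, I0 = ∫ t in Set.Icc 0 X, F b n h δ t := ⟨_, rfl⟩
  have hS : S b n h δ = ∑' q : ℕ, dV (sp b n) h q * (starRingEnd ℂ) (dV (cj (sm b n)) h q) *
    (((q:ℝ) ^ (-(1 + 2 * δ)) : ℝ) : ℂ) := rfl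
  rw [← hS] at h1
  rw [← hA] at h1 hexp ⊢
  rw [← hI0] at h2 ⊢
  have e1 : A * I0 - X * aV (sp b n) (sm b n) h = A * (I0 - X * S b n h δ) + X * (A * S b n h δ - aV (sp b n) (sm b n) h) := by
    ring
  rw [e1]
  refine (norm_add_le _ _).trans ?_
  rw [norm_mul, norm_mul, Complex.norm_real, Real.norm_of_nonneg hX0.le]
  have e2 : δ ^ (-Q) * (δ ^ (Q + 1) * X) = δ ^ (1:ℝ) * X := by
    rw [← mul_assoc, ← Real.rpow_add hδ0]
    congr 2
    ring
  have p1 : ‖A‖ * ‖I0 - X * S b n h δ‖ ≤ ε / 2 * X := by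
    calc ‖A‖ * ‖I0 - X * S b n h δ‖ ≤ δ ^ (-Q) * (δ ^ (Q + 1) * X) := by gcongr
      _ = δ ^ (1:ℝ) * X := e2
      _ ≤ ε / 2 * X := by
          rw [one_mul] at g3
          exact mul_le_mul_of_nonneg_right g3 hX0.le
  have p2 : X * ‖A * S b n h δ - aV (sp b n) (sm b n) h‖ ≤ X * (ε / 2) := mul_le_mul_of_nonneg_left h1 hX0.le
  linarith

end

end Pool.Agent.Run7.h290.RB
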