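import Pool.Agent.Run7.h290.RB.B

set_option autoImplicit false

/-! The moments of all orders over the points where the shifted values are not too large: the full main term. -/

namespace Pool.Agent.Run7.h290.RB

open Finset Filter MeasureTheory Topology Complex
open Pool.Agent.N748.MG Pool.Agent.N748.MJ Pool.Agent.N748.MJ.SM

/-- the points where the shifted values are not too large -/
def E {m : ℕ} (V : ℝ) (h : Fin m → ℝ) (δ X : ℝ) : Set ℝ := {t : ℝ | t ∈ Set.Icc 0 X ∧ ∀ j, mz δ (t + h j) ≤ δ ^ (-V)}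

lemma E_meas {m : ℕ} (V : ℝ) (h : Fin m → ℝ) {δ : ℝ} (h0 : δ ≤ 1 / 16) (X : ℝ) : MeasurableSet (E V h δ X) := by
  have hmzc : ∀ j, Continuous fun t : ℝ => mz δ (t + h j) := fun j => (TMA.cont h0).comp (by fun_prop)
  have : E V h δ X = Set.Icc 0 X ∩ ⋂ j, {t : ℝ | mz δ (t + h j) ≤ δ ^ (-V)} := by
    ext t
    simp [E]
  rw [this]
  exact measurableSet_Icc.inter (MeasurableSet.iInter fun j =>
    measurableSet_le (hmzc j).measurable measurable_const)

/-- bound of the main term -/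
lemma S_bound (m : ℕ) {R : ℝ} (hR : 0 ≤ R) : ∃ C Q δ1 : ℝ, 0 < C ∧ 0 ≤ Q ∧ 0 < δ1 ∧ ∀ δ : ℝ, 0 < δ → δ ≤ δ1 → δ ≤ 1 / 16 →
    ∀ (h : Fin m → ℝ) (b : Fin m → ℂ) (n : Fin m → ℤ), (∀ j, ‖b j‖ ≤ R) → (∀ j, |((n j : ℤ) : ℝ)| ≤ R) →
    ‖S b n h δ‖ ≤ C * δ ^ (-Q) := by
  obtain ⟨c, C, hc, hC, hcC⟩ := posF m (2 * R) (by positivity)
  obtain ⟨δ1, hδ1, hd⟩ := dia2 m (2 * R) (by linarith) 1 one_pos
  refine ⟨C + 1, (m : ℝ) * (m * (2 * R * (2 * R))), δ1, by linarith, by positivity, hδ1, ?_⟩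
  intro δ hδ0 hδ1' hδ16 h b n hb hn
  obtain ⟨Q, hQ⟩ : ∃ Q : ℝ, Q = (m : ℝ) * (m * (2 * R * (2 * R))) := ⟨_, rfl⟩
  rw [← hQ]
  have hn2 : ∀ j, ‖((n j : ℤ) : ℂ) / 2‖ ≤ R := by
    intro j
    rw [norm_div, Complex.norm_intCast]
    have := hn j
    simp only [Complex.norm_ofNat]
    linarith [abs_nonneg ((n j : ℤ) : ℝ)]
  have hs1 : ∀ j, ‖sp b n j‖ ≤ 2 * R := by
    intro j
    unfold sp
    exact (norm_add_le _ _).trans (by linarith [hb j, hn2 j])
  have hs2 : ∀ j, ‖sm b n j‖ ≤ 2 * R := by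
    intro j
    unfold sm
    exact (norm_sub_le _ _).trans (by linarith [hb j, hn2 j])
  have h1 := hd δ hδ0 hδ1' (sp b n) (sm b n) h hs1 hs2
  have h2 := (hcC h).1 (sp b n) (sm b n) hs1 hs2
  obtain ⟨L, hL⟩ : ∃ L, L = Real.log (1 / δ) := ⟨_, rfl⟩
  have hL0 : 0 ≤ L := by rw [hL]; exact Real.log_nonneg (by rw [le_div_iff₀ hδ0]; linarith)
  have hLM : ‖LM (sp b n) (sm b n) h δ‖ ≤ Q * L := by
    unfold LM
    calc ‖∑ j, ∑ l, sp b n j * sm b n l * LZ (1 + 2 * δ) (h j - h l)‖ ≤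
        ∑ _j : Fin m, ∑ _l : Fin m, 2 * R * (2 * R) * L := by
          refine (norm_sum_le _ _).trans (sum_le_sum fun j _ => (norm_sum_le _ _).trans (sum_le_sum fun l _ => ?_))
          rw [norm_mul, norm_mul, hL]
          have := (LZB.main δ hδ0 hδ16 (h j - h l)).1
          gcongr
          · exact hs1 j
          · exact hs2 l
      _ = Q * L := by
          simp only [sum_const, card_univ, Fintype.card_fin, nsmul_eq_mul]
          rw [hQ]
          ring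
  have hS : S b n h δ = ∑' q : ℕ, dV (sp b n) h q * (starRingEnd ℂ) (dV (cj (sm b n)) h q) *
    (((q:ℝ) ^ (-(1 + 2 * δ)) : ℝ) : ℂ) := rfl
  rw [← hS] at h1
  have e1 : S b n h δ = Complex.exp (LM (sp b n) (sm b n) h δ) * (Complex.exp (-(LM (sp b n) (sm b n) h δ)) * S b n h δ) := by
    rw [← mul_assoc, ← Complex.exp_add]
    simp
  have h3 : ‖Complex.exp (-(LM (sp b n) (sm b n) h δ)) * S b n h δ‖ ≤ C + 1 := by
    have e2 : Complex.exp (-(LM (sp b n) (sm b n) h δ)) * S b n h δ =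
      (Complex.exp (-(LM (sp b n) (sm b n) h δ)) * S b n h δ - aV (sp b n) (sm b n) h) + aV (sp b n) (sm b n) h := by ring
    rw [e2]
    exact (norm_add_le _ _).trans (by linarith)
  have h4 : ‖Complex.exp (LM (sp b n) (sm b n) h δ)‖ ≤ δ ^ (-Q) := by
    rw [Complex.norm_exp]
    have h5 : δ ^ (-Q) = Real.exp (Q * L) := by
      rw [Real.rpow_def_of_pos hδ0, hL, one_div, Real.log_inv]
      congr 1
      ring
    rw [h5]
    exact Real.exp_le_exp.2 ((Complex.re_le_norm _).trans hLM)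
  rw [e1, norm_mul]
  calc _ ≤ δ ^ (-Q) * (C + 1) := mul_le_mul h4 h3 (norm_nonneg _) (by positivity)
    _ = _ := mul_comm _ _

/-- all orders, over the points where the shifted values are not too large -/
theorem trunc {m : ℕ} {R D K : ℝ} (hR : 0 < R) (hD : 0 < D) (hK0 : 0 ≤ K) : ∃ V0 : ℝ, ∀ V : ℝ, V0 ≤ V → Ev fun X δ =>
    ∀ h : Fin m → ℝ, (∀ j, |h j| ≤ X ^ ((1:ℝ) / 2)) → ∀ (b : Fin m → ℂ) (n : Fin m → ℤ),
    (∀ j, ‖b j‖ ≤ R) → (∀ j, |((n j : ℤ) : ℝ)| ≤ R) → (∀ j, 0 ≤ (b j).re) → ∑ j, (b j).re ≤ K →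
    ‖(∫ t in E V h δ X, F b n h δ t) - X * S b n h δ‖ ≤ δ ^ D * X := by
  obtain ⟨R1, hR1⟩ : ∃ R1, R1 = R + 1 := ⟨_, rfl⟩
  have hR10 : 0 < R1 := by rw [hR1]; linarith
  obtain ⟨C, Q, δ1, hC, hQ0, hδ1, hSb⟩ := S_bound m hR10.le
  refine ⟨max 0 ((D + Q + 1) / 2), fun V hV => ?_⟩
  have hV0 : 0 ≤ V := (le_max_left _ _).trans hV
  have hVQ : D + Q + 1 ≤ 2 * V := by
    have := (le_max_right _ _).trans hV
    linarith
  obtain ⟨D', hD'⟩ : ∃ D', D' = D + 1 + 2 * (V * K) := ⟨_, rfl⟩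
  have hVK : 0 ≤ V * K := mul_nonneg hV0 hK0
  have hD'0 : 0 < D' := by rw [hD']; linarith
  have hD'D : D + 1 ≤ D' := by rw [hD']; linarith
  have hJ := jmf m R1 D' hR10 hD'0
  refine ((hJ.and (Ev.of_le hδ1)).and (Ev.small (C := 2 + m * (C + 1)) (c := 1) (e := 1) one_pos one_pos)).mono ?_
  intro X δ hX1 hδ0 hδ16 hh h hhX b n hb hn hb0 hbK
  obtain ⟨⟨g1, g2⟩, g3⟩ := hh
  have hX0 : 0 < X := by linarith
  have hδ1' : δ ≤ 1 := by linarith
  obtain ⟨N, n1, n2, n3, n4, n5⟩ := g1 h hhX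
  have hbR : ∀ j, ‖b j‖ ≤ R1 := fun j => (hb j).trans (by rw [hR1]; linarith)
  have hnR : ∀ j, |((n j : ℤ) : ℝ)| ≤ R1 := fun j => (hn j).trans (by rw [hR1]; linarith)
  have h5 := n5 b n hbR hnR
  obtain ⟨k, hk⟩ : ∃ k : Fin m → ℝ, k = fun j => (b j).re := ⟨_, rfl⟩
  have hk0 : ∀ j, 0 ≤ k j := by rw [hk]; exact hb0
  have hkK : ∑ j, k j ≤ K := by rw [hk]; exact hbK
  have hF : ∀ t, ‖F b n h δ t‖ ≤ G k h δ t := by rw [hk]; exact fun t => F_norm hb0
  have hGi : IntegrableOn (fun t => G k h δ t) (Set.Icc 0 X) := (G_cont hδ16 hk0).integrableOn_Icc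
  have hint : IntegrableOn (fun t => F b n h δ t) (Set.Icc 0 X) :=
    Integrable.mono' hGi (F_meas hδ16).aestronglyMeasurable (Eventually.of_forall hF)
  have hEm := E_meas V h hδ16 X
  have hEX : E V h δ X ⊆ Set.Icc 0 X := fun t ht => ht.1
  obtain ⟨E0, hE0⟩ : ∃ E0, E0 = E V h δ X := ⟨_, rfl⟩
  rw [← hE0] at hEm hEX ⊢
  obtain ⟨c0, hc0⟩ : ∃ c0, c0 = δ ^ (-V) := ⟨_, rfl⟩
  have hc00 : 0 < c0 := by rw [hc0]; positivity
  -- the points outside `N`
  have q1 : ‖∫ t in E0 \ N, F b n h δ t‖ ≤ δ ^ (D + 1) * X := by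
    have hv1 : volume (E0 \ N) ≤ ENNReal.ofReal (δ ^ D' * X) := (measure_mono (Set.sdiff_subset_sdiff_left hEX)).trans n3
    have hv2 : volume (E0 \ N) < ⊤ := hv1.trans_lt ENNReal.ofReal_lt_top
    have hpt : ∀ t ∈ E0 \ N, ‖F b n h δ t‖ ≤ δ ^ (-(2 * (V * K))) := by
      intro t ht
      refine (hF t).trans ?_
      have ht1 : ∀ j, mz δ (t + h j) ≤ c0 := by
        have := ht.1
        rw [hE0] at this
        rw [hc0]
        exact this.2
      calc G k h δ t ≤ ∏ j, c0 ^ (2 * k j) := by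
            unfold G
            refine prod_le_prod (fun j _ => Real.rpow_nonneg (norm_nonneg _) _) fun j _ => ?_
            exact Real.rpow_le_rpow (norm_nonneg _) (ht1 j) (by have := hk0 j; linarith)
        _ = δ ^ (-(2 * (V * ∑ j, k j))) := by
            rw [← Real.rpow_sum_of_pos hc00, hc0, ← Real.rpow_mul hδ0.le, ← mul_sum]
            congr 1
            ring
        _ ≤ δ ^ (-(2 * (V * K))) := by
            refine Real.rpow_le_rpow_of_exponent_ge hδ0 hδ1' ?_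
            have := mul_le_mul_of_nonneg_left hkK hV0
            linarith
    have h6 := norm_setIntegral_le_of_norm_le_const (f := fun t => F b n h δ t) hv2 hpt
    refine h6.trans ?_
    have h7 : (volume (E0 \ N)).toReal ≤ δ ^ D' * X := ENNReal.toReal_le_of_le_ofReal (by positivity) hv1
    calc δ ^ (-(2 * (V * K))) * (volume (E0 \ N)).toReal ≤ δ ^ (-(2 * (V * K))) * (δ ^ D' * X) := by gcongr
      _ = δ ^ (D + 1) * X := by
          rw [← mul_assoc, ← Real.rpow_add hδ0]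
          congr 2
          rw [hD']
          ring
  -- the large values in `N`
  have hkp0 : ∀ i j, 0 ≤ kp k 1 i j := by
    intro i j
    unfold kp
    have := hk0 j
    split_ifs <;> linarith
  have hbig : ∀ i, ∫ t in N, G (kp k 1 i) h δ t ≤ (C + 1) * δ ^ (-Q) * X := by
    intro i
    have hn' : ∀ j, ‖cc (kp k 1 i) j‖ ≤ R1 := by
      intro j
      unfold cc
      rw [Complex.norm_real, Real.norm_of_nonneg (hkp0 i j)]
      have h1 : kp k 1 i j ≤ k j + 1 := by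
        unfold kp
        split_ifs <;> linarith
      have h2 : k j ≤ R := by
        rw [hk]
        exact (Complex.re_le_norm _).trans (hb j)
      rw [hR1]
      linarith
    have h1 := n5 (cc (kp k 1 i)) (fun _ => 0) hn' (fun j => by simpa using hR10.le)
    have h2 := hSb δ hδ0 g2 hδ16 h (cc (kp k 1 i)) (fun _ => 0) hn' (fun j => by simpa using hR10.le)
    simp_rw [prod_ZZ] at h1
    rw [integral_complex_ofReal] at h1
    have hI : 0 ≤ ∫ t in N, G (kp k 1 i) h δ t := integral_nonneg fun t => G_nn _ h δ t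
    have h3 : ‖((∫ t in N, G (kp k 1 i) h δ t : ℝ) : ℂ)‖ ≤ δ ^ D' * X + X * (C * δ ^ (-Q)) := by
      have e1 : ((∫ t in N, G (kp k 1 i) h δ t : ℝ) : ℂ) =
          (((∫ t in N, G (kp k 1 i) h δ t : ℝ) : ℂ) - X * S (cc (kp k 1 i)) (fun _ => 0) h δ) +
            X * S (cc (kp k 1 i)) (fun _ => 0) h δ := by ring
      rw [e1]
      refine (norm_add_le _ _).trans (add_le_add h1 ?_)
      rw [norm_mul, Complex.norm_real, Real.norm_of_nonneg hX0.le]
      exact mul_le_mul_of_nonneg_left h2 hX0.le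
    rw [Complex.norm_real, Real.norm_of_nonneg hI] at h3
    have h4 : δ ^ D' ≤ δ ^ (-Q) := Real.rpow_le_rpow_of_exponent_ge hδ0 hδ1' (by linarith)
    have h5 : δ ^ D' * X ≤ δ ^ (-Q) * X := mul_le_mul_of_nonneg_right h4 hX0.le
    linarith
  have q2 : ‖∫ t in N \ E0, F b n h δ t‖ ≤ m * (C + 1) * (δ ^ (D + 1) * X) := by
    have hpt : ∀ t ∈ N \ E0, ‖F b n h δ t‖ ≤ δ ^ (2 * V) * ∑ i, G (kp k 1 i) h δ t := by
      intro t ht
      refine (hF t).trans ?_
      have h1 : ∃ i, c0 < mz δ (t + h i) := by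
        by_contra hcon
        push Not at hcon
        apply ht.2
        rw [hE0]
        exact ⟨n2 ht.1, fun j => by rw [← hc0]; exact hcon j⟩
      obtain ⟨i, hi⟩ := h1
      have hi0 : 0 < mz δ (t + h i) := hc00.trans hi
      have h2 : G k h δ t ≤ δ ^ (2 * V) * G (kp k 1 i) h δ t := by
        rw [G_kp hi0]
        have h3 : 1 ≤ δ ^ (2 * V) * mz δ (t + h i) ^ (2 * (1:ℝ)) := by
          have h4 : c0 ^ (2 * (1:ℝ)) ≤ mz δ (t + h i) ^ (2 * (1:ℝ)) :=
            Real.rpow_le_rpow hc00.le hi.le (by norm_num)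
          have h5 : δ ^ (2 * V) * c0 ^ (2 * (1:ℝ)) = 1 := by
            rw [hc0, ← Real.rpow_mul hδ0.le, ← Real.rpow_add hδ0]
            have : 2 * V + -V * (2 * 1) = 0 := by ring
            rw [this, Real.rpow_zero]
          exact h5.symm.le.trans (mul_le_mul_of_nonneg_left h4 (Real.rpow_pos_of_pos hδ0 _).le)
        have h6 := G_nn k h δ t
        nlinarith
      refine h2.trans (mul_le_mul_of_nonneg_left ?_ (Real.rpow_pos_of_pos hδ0 _).le)
      exact single_le_sum (f := fun i => G (kp k 1 i) h δ t) (fun i _ => G_nn _ h δ t) (mem_univ i)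
    have hGk : ∀ i, IntegrableOn (fun t => G (kp k 1 i) h δ t) N := fun i =>
      ((G_cont hδ16 (hkp0 i)).integrableOn_Icc).mono_set n2
    have h8 : IntegrableOn (fun t => δ ^ (2 * V) * ∑ i, G (kp k 1 i) h δ t) N :=
      (integrable_finsetSum _ fun i _ => hGk i).const_mul _
    have h9 : ‖∫ t in N \ E0, F b n h δ t‖ ≤ ∫ t in N \ E0, δ ^ (2 * V) * ∑ i, G (kp k 1 i) h δ t := by
      refine norm_integral_le_of_norm_le (h8.mono_set Set.sdiff_subset) ?_
      exact (ae_restrict_iff' (n1.diff hEm)).2 (Eventually.of_forall hpt)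
    have h10 : ∫ t in N \ E0, δ ^ (2 * V) * ∑ i, G (kp k 1 i) h δ t ≤ ∫ t in N, δ ^ (2 * V) * ∑ i, G (kp k 1 i) h δ t :=
      setIntegral_mono_set h8 (Eventually.of_forall fun t =>
        mul_nonneg (Real.rpow_nonneg hδ0.le _) (sum_nonneg fun i _ => G_nn _ h δ t)) Set.sdiff_subset.eventuallyLE
    have h11 : ∫ t in N, δ ^ (2 * V) * ∑ i, G (kp k 1 i) h δ t ≤ δ ^ (2 * V) * (m * ((C + 1) * δ ^ (-Q) * X)) := by
      rw [integral_const_mul, integral_finsetSum _ fun i _ => hGk i]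
      refine mul_le_mul_of_nonneg_left ?_ (Real.rpow_nonneg hδ0.le _)
      refine (sum_le_sum fun i _ => hbig i).trans ?_
      rw [sum_const, card_univ, Fintype.card_fin, nsmul_eq_mul]
    have h12 : δ ^ (2 * V) * δ ^ (-Q) ≤ δ ^ (D + 1) := by
      rw [← Real.rpow_add hδ0]
      exact Real.rpow_le_rpow_of_exponent_ge hδ0 hδ1' (by linarith)
    calc _ ≤ _ := h9.trans (h10.trans h11)
      _ = m * (C + 1) * ((δ ^ (2 * V) * δ ^ (-Q)) * X) := by ring
      _ ≤ m * (C + 1) * (δ ^ (D + 1) * X) := by gcongr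
  have e1 : (∫ t in E0, F b n h δ t) = (∫ t in E0 ∩ N, F b n h δ t) + ∫ t in E0 \ N, F b n h δ t :=
    (integral_inter_add_sdiff n1 (hint.mono_set hEX)).symm
  have e2 : (∫ t in N, F b n h δ t) = (∫ t in N ∩ E0, F b n h δ t) + ∫ t in N \ E0, F b n h δ t :=
    (integral_inter_add_sdiff hEm (hint.mono_set n2)).symm
  have e3 : (∫ t in E0, F b n h δ t) - X * S b n h δ =
      ((∫ t in N, F b n h δ t) - X * S b n h δ) + ((∫ t in E0 \ N, F b n h δ t) - ∫ t in N \ E0, F b n h δ t) := by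
    rw [e1, e2, Set.inter_comm N E0]
    ring
  have q0 : ‖(∫ t in N, F b n h δ t) - X * S b n h δ‖ ≤ δ ^ (D + 1) * X :=
    h5.trans (mul_le_mul_of_nonneg_right (Real.rpow_le_rpow_of_exponent_ge hδ0 hδ1' hD'D) hX0.le)
  rw [e3]
  have e4 : δ ^ (D + 1) = δ ^ D * δ := by rw [Real.rpow_add hδ0, Real.rpow_one]
  rw [Real.rpow_one] at g3
  calc _ ≤ ‖(∫ t in N, F b n h δ t) - X * S b n h δ‖ + ‖(∫ t in E0 \ N, F b n h δ t) - ∫ t in N \ E0, F b n h δ t‖ :=
        norm_add_le _ _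
    _ ≤ δ ^ (D + 1) * X + (δ ^ (D + 1) * X + m * (C + 1) * (δ ^ (D + 1) * X)) :=
        add_le_add q0 ((norm_sub_le _ _).trans (add_le_add q1 q2))
    _ = ((2 + m * (C + 1)) * δ) * (δ ^ D * X) := by rw [e4]; ring
    _ ≤ 1 * (δ ^ D * X) := mul_le_mul_of_nonneg_right g3 (by positivity)
    _ = δ ^ D * X := one_mul _

end Pool.Agent.Run7.h290.RB
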