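import Pool.Agent.Run7.h290.RB.C

set_option autoImplicit false

/-! The leading term for real exponents. -/

namespace Pool.Agent.Run7.h290.RB

open Finset Filter MeasureTheory Topology Complex
open Pool.Agent.N748.MG Pool.Agent.N748.MJ Pool.Agent.N748.MJ.SM

/-- the leading term for real exponents -/
theorem leadR {m : ℕ} {K : ℝ} (hK0 : 0 ≤ K) (hK : K < 2) : ∃ c : ℝ, 0 < c ∧ ∀ ε : ℝ, 0 < ε → Ev fun X δ =>
    ∀ h : Fin m → ℝ, (∀ j, |h j| ≤ X ^ ((1:ℝ) / 2)) → ∀ k : Fin m → ℝ, (∀ j, 0 ≤ k j) → ∑ j, k j ≤ K →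
    c ≤ (aV (cc k) (cc k) h).re ∧
    |((1 / X) * ∫ t in Set.Icc 0 X, G k h δ t) / ((aV (cc k) (cc k) h).re *
      ∏ j, ∏ l, ‖riemannZeta (((1 + 2 * δ : ℝ) : ℂ) + ((h j - h l : ℝ) : ℂ) * I)‖ ^ (k j * k l)) - 1| ≤ ε := by
  obtain ⟨R, hR⟩ : ∃ R, R = K + 1 := ⟨_, rfl⟩
  have hR0 : 0 < R := by rw [hR]; linarith
  obtain ⟨c, C, hc, hC, hcC⟩ := posF m R hR0.le
  refine ⟨c, hc, fun ε hε => ?_⟩
  refine (lead (m := m) hR0 hK0 hK (ε := c * ε) (by positivity)).mono ?_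
  intro X δ hX1 hδ0 hδ16 g h hhX k hk hkK
  have hX0 : 0 < X := by linarith
  have hkS : ∀ j, k j ≤ K := fun j =>
    (Finset.single_le_sum (f := k) (fun i _ => hk i) (Finset.mem_univ j)).trans hkK
  obtain ⟨a, ha1, ha2⟩ := (hcC h).2 k (fun j => by rw [abs_of_nonneg (hk j)]; have := hkS j; linarith)
  have ha2' : aV (cc k) (cc k) h = a := ha2
  have ha0 : 0 < a := lt_of_lt_of_le hc ha1
  have hn : ∀ j, ‖cc k j‖ ≤ R := by
    intro j
    unfold cc
    rw [Complex.norm_real, Real.norm_of_nonneg (hk j)]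
    have := hkS j
    linarith
  have h1 := g h hhX (cc k) (fun _ => 0) hn (fun j => by simpa using hR0.le) (fun j => by simpa [cc] using hk j)
    (by simpa [cc] using hkK)
  have h2 := real_form hX0 ha0.le ha2' h1
  have hare : (aV (cc k) (cc k) h).re = a := by rw [ha2', Complex.ofReal_re]
  have hmain : ∏ j, ∏ l, ‖riemannZeta (((1 + 2 * δ : ℝ) : ℂ) + ((h j - h l : ℝ) : ℂ) * I)‖ ^
      (k j * k l) = Real.exp (Lr k h δ) := by
    unfold Lr
    rw [Real.exp_sum]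
    refine Finset.prod_congr rfl fun j _ => ?_
    rw [Real.exp_sum]
    refine Finset.prod_congr rfl fun l _ => ?_
    rw [← (LZB.main δ hδ0 hδ16 (h j - h l)).2, Complex.norm_exp, ← Real.exp_mul]
    congr 1
    ring
  rw [hare, hmain]
  refine ⟨ha1, ?_⟩
  obtain ⟨l, hl⟩ : ∃ l, l = Lr k h δ := ⟨_, rfl⟩
  obtain ⟨x, hx⟩ : ∃ x, x = ∫ t in Set.Icc 0 X, G k h δ t := ⟨_, rfl⟩
  rw [← hl, ← hx] at h2 ⊢
  have he : Real.exp l ≠ 0 := (Real.exp_pos _).ne'
  have e1 : (1 / X * x) / (a * Real.exp l) - 1 = 1 / (X * a) * (Real.exp (-l) * x - X * a) := by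
    rw [Real.exp_neg]
    field_simp
  rw [e1, abs_mul, abs_of_pos (by positivity : 0 < 1 / (X * a))]
  calc 1 / (X * a) * |Real.exp (-l) * x - X * a| ≤ 1 / (X * a) * (c * ε * X) :=
        mul_le_mul_of_nonneg_left h2 (by positivity)
    _ = c / a * ε := by field_simp
    _ ≤ 1 * ε := by
        refine mul_le_mul_of_nonneg_right ?_ hε.le
        rw [div_le_one ha0]
        exact ha1
    _ = ε := one_mul _

end Pool.Agent.Run7.h290.RB
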